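import Pool.Agent.Lib.MP_5de024_nt.S.TrfX.Core

/-!
# TRF: a finitely generated domain over `F_p[X]` has a residue field generated by `X`
-/

set_option autoImplicit false

namespace Pool.Agent.AB3

open Polynomial TensorProduct

/-- a finitely generated domain over `F_p[X]` has a homomorphism to a finite extension of the
field of fractions of `F_p[X]` -/
theorem exists_fin (A : Type) [CommRing A] [IsDomain A] (D : Type) [CommRing D] [IsDomain D]
    [Algebra A D] [Algebra.FiniteType A D] (hinj : Function.Injective (algebraMap A D)) :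
    ∃ (E : Type) (_ : Field E) (_ : Algebra (FractionRing A) E)
      (_ : FiniteDimensional (FractionRing A) E) (χ : D →+* E),
      ∀ a : A, χ (algebraMap A D a) =
        algebraMap (FractionRing A) E (algebraMap A (FractionRing A) a) := by
  let K := FractionRing A
  have hf : FaithfulSMul A D := (faithfulSMul_iff_algebraMap_injective A D).mpr hinj
  have hinj2 : Function.Injective (algebraMap A (FractionRing D)) := by
    rw [IsScalarTower.algebraMap_eq A D (FractionRing D)]
    exact (IsFractionRing.injective D (FractionRing D)).comp hinj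
  let B := K ⊗[A] D
  have hB : Nontrivial B := by
    let g : K →ₐ[A] FractionRing D := IsFractionRing.liftAlgHom (g := Algebra.ofId A (FractionRing D)) hinj2
    let l : B →ₐ[A] FractionRing D :=
      Algebra.TensorProduct.productMap g (IsScalarTower.toAlgHom A D (FractionRing D))
    exact l.toRingHom.domain_nontrivial
  obtain ⟨m, hm⟩ := Ideal.exists_maximal B
  let _ : Field (B ⧸ m) := Ideal.Quotient.field m
  have h1 : Algebra.FiniteType K B := Algebra.FiniteType.baseChange K
  have h2 : Algebra.FiniteType K (B ⧸ m) := h1.trans inferInstance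
  have h3 : Module.Finite K (B ⧸ m) := finite_of_finite_type_of_isJacobsonRing K (B ⧸ m)
  refine ⟨B ⧸ m, inferInstance, inferInstance, h3,
    (Ideal.Quotient.mk m).comp (Algebra.TensorProduct.includeRight (R := A) (A := K)
      (B := D)).toRingHom, ?_⟩
  intro a
  change Ideal.Quotient.mk m ((1 : K) ⊗ₜ[A] (algebraMap A D a)) = Ideal.Quotient.mk m
    ((algebraMap A K a) ⊗ₜ[A] (1 : D))
  congr 1
  rw [Algebra.algebraMap_eq_smul_one, Algebra.algebraMap_eq_smul_one, TensorProduct.tmul_smul,
    TensorProduct.smul_tmul']

/-- a finitely generated domain over `F_p[X]` has a finite residue field generated by `X` -/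
theorem spec_point (p : ℕ) [Fact p.Prime] (D : Type) [CommRing D] [IsDomain D]
    [Algebra (ZMod p)[X] D] [Algebra.FiniteType (ZMod p)[X] D]
    (hinj : Function.Injective (algebraMap (ZMod p)[X] D)) :
    ∃ (F : Type) (_ : Field F) (_ : Finite F) (φ : D →+* F),
      ∀ z : F, ∃ f : (ZMod p)[X], φ (algebraMap (ZMod p)[X] D f) = z := by
  classical
  obtain ⟨E, _, _, _, χ, hχ⟩ := exists_fin (ZMod p)[X] D hinj
  let K := FractionRing (ZMod p)[X]
  have hK : CharP K p := charP_of_injective_algebraMap
    (IsFractionRing.injective (ZMod p)[X] K) p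
  have hE : CharP E p := charP_of_injective_algebraMap (algebraMap K E).injective p
  have hex : ExpChar K p := ExpChar.prime Fact.out
  have hexE : ExpChar E p := ExpChar.prime Fact.out
  let S := separableClosure K E
  have hS1 : FiniteDimensional K S := inferInstance
  have hS2 : FiniteDimensional S E := inferInstance
  have hS3 : IsPurelyInseparable S E := inferInstance
  have hexS : ExpChar S p := inferInstance
  let n := IsPurelyInseparable.exponent S E
  let Φ : E →+* S := IsPurelyInseparable.iterateFrobenius S E p (n := n) le_rfl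
  have hΦ : ∀ a : K, Φ (algebraMap K E a) = (algebraMap K S a) ^ p ^ n := by
    intro a
    have h1 := IsPurelyInseparable.iterateFrobenius_algebraMap (K := S) (L := E) p (n := n)
      le_rfl (algebraMap K S a)
    exact h1
  obtain ⟨G, hG⟩ := (inferInstance : Algebra.FiniteType (ZMod p)[X] D).out
  let alg : Algebra (ZMod p)[X] S := ((algebraMap K S).comp (algebraMap (ZMod p)[X] K)).toAlgebra
  have htow : IsScalarTower (ZMod p)[X] K S := IsScalarTower.of_algebraMap_eq' rfl
  obtain ⟨C, hA, F, _, _, ψ, hT, hsurj⟩ := core_sep p K S (G.image (fun d => Φ (χ d)))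
  have hmem : ∀ d : D, Φ (χ d) ∈ C := by
    intro d
    have hd : d ∈ Algebra.adjoin (ZMod p)[X] (G : Set D) := by rw [hG]; trivial
    induction hd using Algebra.adjoin_induction with
    | mem x hx => exact hT _ (Finset.mem_image.mpr ⟨x, hx, rfl⟩)
    | algebraMap f =>
      rw [hχ, hΦ]
      exact C.pow_mem (hA f) _
    | add x y _ _ hx hy =>
      rw [map_add, map_add]
      exact C.add_mem hx hy
    | mul x y _ _ hx hy =>
      rw [map_mul, map_mul]
      exact C.mul_mem hx hy
  let φ₁ : D →+* C := (Φ.comp χ).codRestrict C hmem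
  have hφ₁ : ∀ f : (ZMod p)[X], φ₁ (algebraMap (ZMod p)[X] D f) =
      (⟨algebraMap (ZMod p)[X] S f, hA f⟩ : C) ^ p ^ n := by
    intro f
    apply Subtype.ext
    change Φ (χ (algebraMap (ZMod p)[X] D f)) = (algebraMap (ZMod p)[X] S f) ^ p ^ n
    rw [hχ, hΦ]
    rfl
  refine ⟨F, inferInstance, inferInstance, ψ.comp φ₁, ?_⟩
  intro z
  have hFp : CharP F p := charP_of_injective_ringHom
    (f := ((ψ.comp φ₁).comp (algebraMap (ZMod p)[X] D)).comp (Polynomial.C : ZMod p →+* _))
    (RingHom.injective _) p
  have hexF : ExpChar F p := ExpChar.prime Fact.out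
  obtain ⟨w, hw⟩ : ∃ w : F, w ^ p ^ n = z := by
    have h1 := (Finite.injective_iff_surjective.mp (iterateFrobenius F p n).injective) z
    obtain ⟨w, hw⟩ := h1
    exact ⟨w, by rw [← hw, iterateFrobenius_def]⟩
  obtain ⟨f, hf⟩ := hsurj w
  refine ⟨f, ?_⟩
  change ψ (φ₁ (algebraMap (ZMod p)[X] D f)) = z
  rw [hφ₁, map_pow, hf, hw]

end Pool.Agent.AB3
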