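import Pool.Agent.Lib.MP_5de024_nt.S.TrfX.Val

/-!
# TRF: residue fields generated by `X`, separable case
-/

set_option autoImplicit false

namespace Pool.Agent.AB3

open Polynomial

/-- `S` is finite separable over `F_p(X)` and `T` is a finite set: there is a subring `C` of `S`
containing `F_p[X]` and `T`, and a homomorphism from `C` to a finite field, surjective on
`F_p[X]` -/
theorem core_sep (p : ℕ) [Fact p.Prime] (K S : Type) [Field K] [Algebra (ZMod p)[X] K]
    [IsFractionRing (ZMod p)[X] K] [Field S] [Algebra K S] [Algebra (ZMod p)[X] S]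
    [IsScalarTower (ZMod p)[X] K S] [FiniteDimensional K S] [Algebra.IsSeparable K S]
    (T : Finset S) :
    ∃ (C : Subring S) (hA : ∀ f : (ZMod p)[X], algebraMap (ZMod p)[X] S f ∈ C)
      (F : Type) (_ : Field F) (_ : Finite F) (ψ : C →+* F), (∀ t ∈ T, t ∈ C) ∧
      ∀ z : F, ∃ f : (ZMod p)[X], ψ ⟨algebraMap (ZMod p)[X] S f, hA f⟩ = z := by
  classical
  have halg : Algebra.IsAlgebraic (ZMod p)[X] K := IsLocalization.isAlgebraic K (nonZeroDivisors (ZMod p)[X])
  have halgS : Algebra.IsAlgebraic (ZMod p)[X] S := Algebra.IsAlgebraic.trans (ZMod p)[X] K S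
  have hinj : Function.Injective (algebraMap (ZMod p)[X] S) := by
    rw [IsScalarTower.algebraMap_eq (ZMod p)[X] K S]
    exact (algebraMap K S).injective.comp (IsFractionRing.injective (ZMod p)[X] K)
  have htf : Module.IsTorsionFree (ZMod p)[X] S :=
    Module.isTorsionFree_iff_algebraMap_injective.mpr hinj
  -- an integral primitive element
  obtain ⟨α, hα, hint⟩ : ∃ α : S, IntermediateField.adjoin K {α} = ⊤ ∧
      IsIntegral (ZMod p)[X] α := by
    obtain ⟨α, hα⟩ := Field.exists_primitive_element K S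
    obtain ⟨y, hy, hyi⟩ := (halgS.isAlgebraic α).exists_integral_multiple
    refine ⟨y • α, ?_, hyi⟩
    rw [eq_top_iff, ← hα]
    rw [IntermediateField.adjoin_simple_le_iff]
    have h1 : y • α ∈ IntermediateField.adjoin K {y • α} :=
      IntermediateField.mem_adjoin_simple_self K _
    have h2 : algebraMap (ZMod p)[X] K y ≠ 0 := by
      intro h0
      exact hy ((injective_iff_map_eq_zero _).mp (IsFractionRing.injective (ZMod p)[X] K) y h0)
    have h3 : (algebraMap (ZMod p)[X] K y)⁻¹ • (y • α) = α := by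
      rw [← IsScalarTower.algebraMap_smul K y α, smul_smul, inv_mul_cancel₀ h2, one_smul]
    have h4 := IntermediateField.smul_mem _ (x := (algebraMap (ZMod p)[X] K y)⁻¹) h1
    rw [h3] at h4
    exact h4
  -- denominators
  have hden1 : ∀ t : S, ∃ s : (ZMod p)[X], s ≠ 0 ∧ ∃ g : (ZMod p)[X][X],
      algebraMap (ZMod p)[X] S s * t = aeval α g := by
    intro t
    have hαK : IsIntegral K α := IsIntegral.tower_top hint
    have ht : t ∈ IntermediateField.adjoin K {α} := by rw [hα]; trivial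
    rw [← IntermediateField.mem_toSubalgebra,
      IntermediateField.adjoin_simple_toSubalgebra_of_isAlgebraic hαK.isAlgebraic,
      Algebra.adjoin_singleton_eq_range_aeval] at ht
    obtain ⟨q, hq⟩ := ht
    obtain ⟨b, hb, h5⟩ :=
      IsLocalization.integerNormalization_spec (nonZeroDivisors (ZMod p)[X]) q
    refine ⟨b, nonZeroDivisors.ne_zero hb,
      IsLocalization.integerNormalization (nonZeroDivisors (ZMod p)[X]) q, ?_⟩
    have h6 : aeval α (b • q) = algebraMap (ZMod p)[X] S b * t := by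
      rw [← IsScalarTower.algebraMap_smul K b q, map_smul, Algebra.smul_def]
      rw [← IsScalarTower.algebraMap_apply]
      congr 1
    rw [← h6, ← h5, aeval_map_algebraMap]
  have hden : ∃ s : (ZMod p)[X], s ≠ 0 ∧ ∀ t ∈ T, ∃ g : (ZMod p)[X][X],
      algebraMap (ZMod p)[X] S s * t = aeval α g := by
    choose s hs g hg using hden1
    refine ⟨∏ t ∈ T, s t, Finset.prod_ne_zero_iff.mpr (fun t _ => hs t), ?_⟩
    intro t ht
    refine ⟨C (∏ u ∈ T.erase t, s u) * g t, ?_⟩
    rw [map_mul, aeval_C, ← hg t, ← mul_assoc, ← map_mul, Finset.prod_erase_mul _ _ ht]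
  obtain ⟨s, hs, hT⟩ := hden
  obtain ⟨f, π, hπ, hd, hns⟩ := exists_val p (minpoly (ZMod p)[X] α)
    (minpoly.natDegree_pos hint) s hs
  have hmax : (Ideal.span {π} : Ideal (ZMod p)[X]).IsMaximal :=
    PrincipalIdealRing.isMaximal_of_irreducible hπ
  let _ : Field ((ZMod p)[X] ⧸ Ideal.span {π}) := Ideal.Quotient.field _
  let m : (ZMod p)[X] →+* (ZMod p)[X] ⧸ Ideal.span {π} := Ideal.Quotient.mk _
  let ψ₀ : (ZMod p)[X][X] →+* (ZMod p)[X] ⧸ Ideal.span {π} := m.comp (evalRingHom f)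
  have hs0 : ψ₀ (C s) ≠ 0 := by
    intro h0
    apply hns
    have h1 : m s = 0 := by simpa [ψ₀] using h0
    exact Ideal.mem_span_singleton.mp (Ideal.Quotient.eq_zero_iff_mem.mp h1)
  have hker : ∀ g : (ZMod p)[X][X], aeval α g = 0 → ψ₀ g = 0 := by
    intro g hg
    have h1 : minpoly (ZMod p)[X] α ∣ g := (minpoly.isIntegrallyClosed_dvd_iff hint g).mp hg
    obtain ⟨q, rfl⟩ := h1
    have h2 : ψ₀ (minpoly (ZMod p)[X] α) = 0 := by
      change m ((minpoly (ZMod p)[X] α).eval f) = 0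
      exact Ideal.Quotient.eq_zero_iff_mem.mpr (Ideal.mem_span_singleton.mpr hd)
    rw [map_mul, h2, zero_mul]
  -- the value does not depend on the representation
  have hval : ∀ (c : S) (m1 m2 : ℕ) (g1 g2 : (ZMod p)[X][X]),
      algebraMap (ZMod p)[X] S s ^ m1 * c = aeval α g1 →
      algebraMap (ZMod p)[X] S s ^ m2 * c = aeval α g2 →
      ψ₀ g1 * (ψ₀ (C s))⁻¹ ^ m1 = ψ₀ g2 * (ψ₀ (C s))⁻¹ ^ m2 := by
    intro c m1 m2 g1 g2 h1 h2
    have h3 : aeval α (C s ^ m2 * g1 - C s ^ m1 * g2) = 0 := by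
      rw [map_sub, map_mul, map_mul, map_pow, map_pow, aeval_C, ← h1, ← h2]
      ring
    have h4 := hker _ h3
    rw [map_sub, map_mul, map_mul, map_pow, map_pow, sub_eq_zero] at h4
    rw [inv_pow, inv_pow, ← div_eq_mul_inv, ← div_eq_mul_inv,
      div_eq_div_iff (pow_ne_zero _ hs0) (pow_ne_zero _ hs0)]
    rw [mul_comm (ψ₀ g1), mul_comm (ψ₀ g2)]
    exact h4
  let C₁ : Subring S :=
    { carrier := {c | ∃ (m : ℕ) (g : (ZMod p)[X][X]),
        algebraMap (ZMod p)[X] S s ^ m * c = aeval α g}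
      mul_mem' := by
        rintro a b ⟨m1, g1, h1⟩ ⟨m2, g2, h2⟩
        refine ⟨m1 + m2, g1 * g2, ?_⟩
        rw [map_mul, ← h1, ← h2]
        ring
      one_mem' := ⟨0, 1, by simp⟩
      add_mem' := by
        rintro a b ⟨m1, g1, h1⟩ ⟨m2, g2, h2⟩
        refine ⟨m1 + m2, C s ^ m2 * g1 + C s ^ m1 * g2, ?_⟩
        rw [map_add, map_mul, map_mul, ← h1, ← h2, map_pow, map_pow, aeval_C]
        ring
      zero_mem' := ⟨0, 0, by simp⟩
      neg_mem' := by
        rintro a ⟨m1, g1, h1⟩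
        refine ⟨m1, -g1, ?_⟩
        rw [map_neg, ← h1]
        ring }
  have hA : ∀ f : (ZMod p)[X], algebraMap (ZMod p)[X] S f ∈ C₁ :=
    fun f => ⟨0, C f, by rw [aeval_C, pow_zero, one_mul]⟩
  have hC : ∀ c : C₁, ∃ (m : ℕ) (g : (ZMod p)[X][X]),
        algebraMap (ZMod p)[X] S s ^ m * (c : S) = aeval α g := fun c => c.2
  choose mm gg hgg using hC
  let ψ : C₁ →+* (ZMod p)[X] ⧸ Ideal.span {π} :=
    { toFun := fun c => ψ₀ (gg c) * (ψ₀ (C s))⁻¹ ^ mm c
      map_one' := by
        rw [hval 1 (mm 1) 0 (gg 1) 1 (hgg 1) (by simp)]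
        simp
      map_zero' := by
        rw [hval 0 (mm 0) 0 (gg 0) 0 (hgg 0) (by simp)]
        simp
      map_mul' := by
        intro a b
        rw [hval (a * b : S) (mm (a * b)) (mm a + mm b) (gg (a * b)) (gg a * gg b)
          (hgg (a * b)) (by rw [map_mul, ← hgg a, ← hgg b]; ring)]
        rw [map_mul, pow_add]
        ring
      map_add' := by
        intro a b
        rw [hval (a + b : S) (mm (a + b)) (mm a + mm b) (gg (a + b))
          (C s ^ mm b * gg a + C s ^ mm a * gg b) (hgg (a + b)) (by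
            rw [map_add, map_mul, map_mul, ← hgg a, ← hgg b, map_pow, map_pow, aeval_C]
            ring)]
        rw [map_add, map_mul, map_mul, map_pow, map_pow, pow_add, add_mul]
        have h1 : ∀ n : ℕ, ψ₀ (C s) ^ n * (ψ₀ (C s))⁻¹ ^ n = 1 := by
          intro n
          rw [← mul_pow, mul_inv_cancel₀ hs0, one_pow]
        have h2 := h1 (mm a)
        have h3 := h1 (mm b)
        linear_combination (ψ₀ (gg a) * (ψ₀ (C s))⁻¹ ^ mm a) * h3 +
          (ψ₀ (gg b) * (ψ₀ (C s))⁻¹ ^ mm b) * h2 }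
  have hFin : Finite ((ZMod p)[X] ⧸ Ideal.span {π}) := by
    have h1 : Module.Finite (ZMod p) ((ZMod p)[X] ⧸ Ideal.span {π}) :=
      (AdjoinRoot.powerBasis hπ.ne_zero).finite
    exact Module.finite_of_finite (ZMod p)
  refine ⟨C₁, hA, (ZMod p)[X] ⧸ Ideal.span {π}, inferInstance, hFin, ψ, ?_, ?_⟩
  · intro t ht
    obtain ⟨g, hg⟩ := hT t ht
    exact ⟨1, g, by rw [pow_one]; exact hg⟩
  · intro z
    obtain ⟨q, rfl⟩ := Ideal.Quotient.mk_surjective z
    refine ⟨q, ?_⟩
    change ψ₀ (gg ⟨algebraMap (ZMod p)[X] S q, hA q⟩) * (ψ₀ (C s))⁻¹ ^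
      mm ⟨algebraMap (ZMod p)[X] S q, hA q⟩ = _
    rw [hval (algebraMap (ZMod p)[X] S q) (mm ⟨algebraMap (ZMod p)[X] S q, hA q⟩) 0
      (gg ⟨algebraMap (ZMod p)[X] S q, hA q⟩) (C q) (hgg ⟨algebraMap (ZMod p)[X] S q, hA q⟩)
      (by rw [aeval_C, pow_zero, one_mul])]
    rw [pow_zero, mul_one]
    change m ((C q).eval f) = _
    rw [eval_C]

end Pool.Agent.AB3
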