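import Mathlib

/-!
# TRF: values of polynomials over `F_p[X]` have primes not dividing `s`
-/

set_option autoImplicit false

namespace Pool.Agent.AB3

open Polynomial

/-- Euclid: the values of a nonconstant polynomial over `F_p[X]` have a prime factor which
does not divide the given polynomial `s` -/
theorem exists_val (p : ℕ) [Fact p.Prime] (H : (ZMod p)[X][X])
    (hn : 0 < H.natDegree) (s : (ZMod p)[X]) (hs : s ≠ 0) :
    ∃ f π : (ZMod p)[X], Irreducible π ∧ π ∣ H.eval f ∧ ¬ π ∣ s := by
  classical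
  by_contra hcon
  push Not at hcon
  have hfin : ∀ z : (ZMod p)[X], {f : (ZMod p)[X] | H.eval f = z}.Finite := by
    intro z
    have hne : H - C z ≠ 0 := by
      intro h0
      have h1 : H = C z := sub_eq_zero.mp h0
      rw [h1, natDegree_C] at hn
      exact lt_irrefl _ hn
    refine ((H - C z).roots.toFinset.finite_toSet).subset ?_
    intro f hf
    simp only [Finset.mem_coe, Multiset.mem_toFinset]
    rw [mem_roots hne, IsRoot.def, eval_sub, eval_C]
    exact sub_eq_zero.mpr hf
  obtain ⟨f₀, hf₀⟩ : ∃ f : (ZMod p)[X], H.eval f ≠ 0 := by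
    by_contra h0
    push Not at h0
    exact Set.infinite_univ ((hfin 0).subset (fun f _ => h0 f))
  have key : ∀ g : (ZMod p)[X], ∃ c : ZMod p,
      H.eval (f₀ + H.eval f₀ * s * g) = H.eval f₀ * C c := by
    intro g
    obtain ⟨r, hr⟩ := Polynomial.sub_dvd_eval_sub (f₀ + H.eval f₀ * s * g) f₀ H
    have h1 : H.eval (f₀ + H.eval f₀ * s * g) = H.eval f₀ * (1 + s * (g * r)) := by
      have h2 := hr
      rw [add_sub_cancel_left, sub_eq_iff_eq_add] at h2
      rw [h2]
      ring
    by_cases hu : IsUnit (1 + s * (g * r))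
    · obtain ⟨c, hc, hc2⟩ := Polynomial.isUnit_iff.mp hu
      exact ⟨c, by rw [h1, ← hc2]⟩
    · by_cases h0 : 1 + s * (g * r) = 0
      · exact ⟨0, by rw [h1, h0, C_0]⟩
      · obtain ⟨π, hπ, hd⟩ := WfDvdMonoid.exists_irreducible_factor hu h0
        have h3 := hcon (f₀ + H.eval f₀ * s * g) π hπ (by rw [h1]; exact hd.mul_left _)
        exfalso
        apply hπ.not_isUnit
        apply isUnit_of_dvd_one
        have h4 : π ∣ s * (g * r) := h3.mul_right _
        exact (dvd_add_left h4).mp hd
  have hinj : Function.Injective (fun g : (ZMod p)[X] => f₀ + H.eval f₀ * s * g) := by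
    intro a b hab
    simp only [add_right_inj] at hab
    exact mul_left_cancel₀ (mul_ne_zero hf₀ hs) hab
  have hF : (⋃ c : ZMod p, {f : (ZMod p)[X] | H.eval f = H.eval f₀ * C c}).Finite :=
    Set.finite_iUnion (fun c => hfin _)
  refine Set.infinite_range_of_injective hinj (hF.subset ?_)
  rintro _ ⟨g, rfl⟩
  obtain ⟨c, hc⟩ := key g
  exact Set.mem_iUnion.mpr ⟨c, hc⟩

end Pool.Agent.AB3
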